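import Pool.Agent.H877_TF.Exist

/-!
# Triangle-free almost dense graphs with few 4-cycles

For every admissible density `p = n^{-o(1)}`: if `p → 0`, there are graphs satisfying conditions
1-3 of the problem that are triangle-free for all large `n`; and conditions 1-3 force
`s_p(K_3, G_n) → 1` for all sequences if and only if `p` is bounded below by a positive constant.
-/

namespace Pool.Agent.Results.MP_e47ff0_co.TriangleFree

open Filter Topology

/-- `emb F G`: the number of injective maps from the vertices of `F` to the vertices of `G` that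
send edges of `F` to edges of `G`. -/
noncomputable def emb {k n : ℕ} (F : SimpleGraph (Fin k)) (G : SimpleGraph (Fin n)) : ℕ :=
  Nat.card {f : Fin k → Fin n // Function.Injective f ∧ ∀ u v, F.Adj u v → G.Adj (f u) (f v)}

/-- `sp p F G = emb(F, G) / (n (n - 1) ... (n - k + 1) p ^ e(F))` for `F` on `k` vertices and `G`
on `n` vertices. -/
noncomputable def sp (p : ℝ) {k n : ℕ} (F : SimpleGraph (Fin k)) (G : SimpleGraph (Fin n)) : ℝ :=
  (emb F G : ℝ) / ((n.descFactorial k : ℝ) * p ^ (Nat.card F.edgeSet))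

/-- Admissible densities: `0 < p(n) ≤ 1`, `log(1/p)/log n → 0`, and `p(n) * (n choose 2)` is a
natural number. -/
def Adm (p : ℕ → ℝ) : Prop :=
  (∀ n, 0 < p n ∧ p n ≤ 1) ∧
  Tendsto (fun n : ℕ => Real.log (1 / p n) / Real.log n) atTop (𝓝 0) ∧
  ∀ n, ∃ e : ℕ, (e : ℝ) = p n * (n.choose 2)

/-- Conditions 1-3 of the problem for a sequence of graphs, the `n`th on `n` vertices. -/
def Cond (p : ℕ → ℝ) (G : ∀ n, SimpleGraph (Fin n)) : Prop :=
  (∀ n, (Nat.card (G n).edgeSet : ℝ) = p n * (n.choose 2)) ∧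
  Tendsto (fun n => sp (p n) (SimpleGraph.cycleGraph 4) (G n)) atTop (𝓝 1) ∧
  ∀ (k : ℕ) (F : SimpleGraph (Fin k)), ∃ C : ℝ, ∀ n, sp (p n) F (G n) ≤ C

/-- There are admissible densities tending to `0`; for each of them there are graphs satisfying
conditions 1-3 that are triangle-free for all large `n`; and for an admissible density `p`,
conditions 1-3 force `s_p(K_3, G_n) → 1` if and only if `p` is bounded below by a positive
constant. -/
theorem result :
    (∃ p : ℕ → ℝ, Adm p ∧ Tendsto p atTop (𝓝 0)) ∧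
    (∀ p : ℕ → ℝ, Adm p → Tendsto p atTop (𝓝 0) →
      ∃ G : ∀ n, SimpleGraph (Fin n), Cond p G ∧ ∀ᶠ n in atTop, (G n).CliqueFree 3) ∧
    (∀ p : ℕ → ℝ, Adm p →
      ((∀ G : ∀ n, SimpleGraph (Fin n), Cond p G →
        Tendsto (fun n => sp (p n) (⊤ : SimpleGraph (Fin 3)) (G n)) atTop (𝓝 1)) ↔
      ∃ c : ℝ, 0 < c ∧ ∀ n, c ≤ p n)) :=
  ⟨H877_TF.exists_adm, H877_TF.tendsto_case, H877_TF.iff_case⟩

end Pool.Agent.Results.MP_e47ff0_co.TriangleFree
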